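import Pool.Agent.Helper68K9.ET.Grow
import Pool.Agent.W227.FC.Growth

/-!
# A double loop gives many representations
-/

set_option autoImplicit false

namespace Pool.Agent.Helper68K9.ET

open Filter

/-- digits chosen by a list of booleans -/
def X (Q u v s₀ : ℕ) : List Bool → ℕ
  | [] => s₀
  | (b :: l) => (if b then u else v) + Q * X Q u v s₀ l

/-- the sum of complementary choices -/
def M (Q u v s₀ : ℕ) : ℕ → ℕ
  | 0 => 2 * s₀
  | (m + 1) => (u + v) + Q * M Q u v s₀ m

theorem X_mem {q : ℕ} {S : Set ℕ} {k u v s₀ : ℕ} (hu : sec q S k u = S) (hv : sec q S k v = S)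
    (h0 : s₀ ∈ S) (l : List Bool) : X (q ^ k) u v s₀ l ∈ S := by
  induction l with
  | nil => exact h0
  | cons b l ih =>
    cases b
    · rw [← hv] at ih
      have : q ^ k * X (q ^ k) u v s₀ l + v ∈ S := ih
      rw [X]
      simp only [Bool.false_eq_true, if_false]
      rw [add_comm]
      exact this
    · rw [← hu] at ih
      have : q ^ k * X (q ^ k) u v s₀ l + u ∈ S := ih
      rw [X]
      simp only [if_true]
      rw [add_comm]
      exact this

theorem X_add (Q u v s₀ : ℕ) (l : List Bool) :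
    X Q u v s₀ l + X Q u v s₀ (l.map (fun b => !b)) = M Q u v s₀ l.length := by
  induction l with
  | nil => simp [X, M]; ring
  | cons b l ih =>
    rw [List.map_cons, X, X, List.length_cons, M, ← ih]
    cases b <;> simp <;> ring

theorem X_inj {Q u v s₀ : ℕ} (hu : u < Q) (hv : v < Q) (huv : u ≠ v) :
    ∀ l l' : List Bool, l.length = l'.length → X Q u v s₀ l = X Q u v s₀ l' → l = l' := by
  intro l
  induction l with
  | nil =>
    intro l' h _
    exact (List.length_eq_zero_iff.1 (by simpa using h.symm)).symm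
  | cons b l ih =>
    intro l' h hX
    obtain ⟨b', l'', rfl⟩ : ∃ b' l'', l' = b' :: l'' := by
      cases l' with
      | nil => simp at h
      | cons b' l'' => exact ⟨b', l'', rfl⟩
    rw [X, X] at hX
    have hQ : 0 < Q := by omega
    have h1 := congrArg (fun n => n % Q) hX
    simp only [Nat.add_mul_mod_self_left] at h1
    have h2 : (if b then u else v) % Q = (if b then u else v) := Nat.mod_eq_of_lt (by split_ifs <;> assumption)
    have h3 : (if b' then u else v) % Q = (if b' then u else v) := Nat.mod_eq_of_lt (by split_ifs <;> assumption)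
    rw [h2, h3] at h1
    have hb : b = b' := by
      cases b <;> cases b' <;> simp at h1 ⊢
      · exact huv h1.symm
      · exact huv h1
    subst hb
    have h4 : Q * X Q u v s₀ l = Q * X Q u v s₀ l'' := by omega
    have h5 := Nat.eq_of_mul_eq_mul_left hQ h4
    rw [ih l'' (by simpa using h) h5]

theorem M_ge {Q u v s₀ : ℕ} (hQ : 2 ≤ Q) (huv : u ≠ v) (m : ℕ) : m ≤ M Q u v s₀ m := by
  induction m with
  | zero => exact Nat.zero_le _
  | succ m ih =>
    rw [M]
    nlinarith [show 1 ≤ u + v by omega]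

theorem M_le {Q u v s₀ : ℕ} (hQ : 2 ≤ Q) (hu : u < Q) (hv : v < Q) (m : ℕ) :
    M Q u v s₀ m + 4 ≤ (2 * s₀ + 4) * Q ^ m := by
  induction m with
  | zero => simp [M]
  | succ m ih =>
    rw [M, pow_succ]
    have h1 : (M Q u v s₀ m + 4) * Q ≤ (2 * s₀ + 4) * Q ^ m * Q := Nat.mul_le_mul_right _ ih
    nlinarith

/-- the set of representations -/
def reps (A : Set ℕ) (h n : ℕ) : Set (Multiset ℕ) :=
  {s : Multiset ℕ | Multiset.card s = h ∧ (∀ a ∈ s, a ∈ A) ∧ s.sum = n}

theorem many_reps {q : ℕ} {A S : Set ℕ} {a b k u v s₀ a₀ : ℕ} (hq : 2 ≤ q) (hSA : S = sec q A a b)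
    (hu : u < q ^ k) (hv : v < q ^ k) (hSu : sec q S k u = S) (hSv : sec q S k v = S) (huv : u ≠ v)
    (hs₀ : s₀ ∈ S) (ha₀ : a₀ ∈ A) (h : ℕ) (hh : 2 ≤ h) (m : ℕ) :
    2 ^ m ≤ (reps A h (q ^ a * M (q ^ k) u v s₀ (m + 1) + 2 * b + (h - 2) * a₀)).ncard := by
  classical
  have hqa : 0 < q ^ a := pow_pos (by omega) a
  let y : List Bool → ℕ := fun l => q ^ a * X (q ^ k) u v s₀ l + b
  have hyA : ∀ l, y l ∈ A := by
    intro l
    have := X_mem hSu hSv hs₀ l
    rw [hSA] at this
    exact this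
  have hyinj : ∀ l l' : List Bool, l.length = l'.length → y l = y l' → l = l' := by
    intro l l' hl h1
    refine X_inj (s₀ := s₀) hu hv huv l l' hl ?_
    have h2 : q ^ a * X (q ^ k) u v s₀ l = q ^ a * X (q ^ k) u v s₀ l' := by
      simp only [y] at h1
      omega
    exact Nat.eq_of_mul_eq_mul_left hqa h2
  let lt : (Fin m → Bool) → List Bool := fun ε => true :: List.ofFn ε
  let lf : (Fin m → Bool) → List Bool := fun ε => (lt ε).map (fun b => !b)
  let g : (Fin m → Bool) → Multiset ℕ := fun ε =>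
    y (lt ε) ::ₘ y (lf ε) ::ₘ Multiset.replicate (h - 2) a₀
  have hglen : ∀ ε, (lt ε).length = m + 1 := fun ε => by simp [lt]
  have hglen' : ∀ ε, (lf ε).length = m + 1 := fun ε => by simp [lf, lt]
  have hgmem : ∀ ε, g ε ∈ reps A h (q ^ a * M (q ^ k) u v s₀ (m + 1) + 2 * b + (h - 2) * a₀) := by
    intro ε
    refine ⟨?_, ?_, ?_⟩
    · simp only [g, Multiset.card_cons, Multiset.card_replicate]
      omega
    · intro x hx
      simp only [g, Multiset.mem_cons, Multiset.mem_replicate] at hx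
      rcases hx with rfl | rfl | ⟨_, rfl⟩
      · exact hyA _
      · exact hyA _
      · exact ha₀
    · simp only [g, Multiset.sum_cons, Multiset.sum_replicate, smul_eq_mul]
      have h1 := X_add (q ^ k) u v s₀ (lt ε)
      rw [hglen] at h1
      rw [← h1]
      simp only [y, lf]
      ring
  have hginj : Function.Injective g := by
    intro ε ε' hεε
    have h1 : y (lt ε) ::ₘ y (lf ε) ::ₘ (0 : Multiset ℕ) = y (lt ε') ::ₘ y (lf ε') ::ₘ 0 := by
      have e1 : g ε = (y (lt ε) ::ₘ y (lf ε) ::ₘ 0) + Multiset.replicate (h - 2) a₀ := by simp [g]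
      have e2 : g ε' = (y (lt ε') ::ₘ y (lf ε') ::ₘ 0) + Multiset.replicate (h - 2) a₀ := by simp [g]
      rw [e1, e2] at hεε
      exact Multiset.add_left_inj.1 hεε
    have h2 : y (lt ε) ∈ (y (lt ε') ::ₘ y (lf ε') ::ₘ (0 : Multiset ℕ)) := by
      rw [← h1]; simp
    simp only [Multiset.mem_cons, Multiset.notMem_zero, or_false] at h2
    rcases h2 with h2 | h2
    · have h3 := hyinj _ _ (by rw [hglen, hglen]) h2
      simp only [lt, List.cons.injEq, true_and] at h3
      exact List.ofFn_injective h3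
    · exfalso
      have h3 := hyinj _ _ (by rw [hglen, hglen']) h2
      simp [lt, lf] at h3
  have hfin : (reps A h (q ^ a * M (q ^ k) u v s₀ (m + 1) + 2 * b + (h - 2) * a₀)).Finite :=
    Pool.Agent.W227.FC.multi_finite A h _
  have h4 : (Set.univ : Set (Fin m → Bool)).ncard ≤
      (reps A h (q ^ a * M (q ^ k) u v s₀ (m + 1) + 2 * b + (h - 2) * a₀)).ncard :=
    Set.ncard_le_ncard_of_injOn g (fun ε _ => hgmem ε) (fun _ _ _ _ h => hginj h) hfin
  rw [Set.ncard_univ, Nat.card_eq_fintype_card, Fintype.card_fun, Fintype.card_bool,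
    Fintype.card_fin] at h4
  exact h4

/-- a double loop gives a power of `n` representations -/
theorem power_of_double {q : ℕ} (hq : 2 ≤ q) {A : Set ℕ} (hD : Double q A) :
    ∃ c : ℝ, 0 < c ∧ ∀ h : ℕ, 2 ≤ h → ∃ᶠ n : ℕ in atTop, (n : ℝ) ^ c ≤ ((reps A h n).ncard : ℝ) := by
  obtain ⟨S, ⟨a, b, hb, hSA⟩, ⟨s₀, hs₀⟩, k, u, v, hu, hv, hSu, hSv, huv⟩ := hD
  have ha₀ : q ^ a * s₀ + b ∈ A := by
    have := hs₀
    rw [hSA] at this
    exact this
  set a₀ := q ^ a * s₀ + b with ha₀def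
  set Q := q ^ k with hQdef
  have hQ : 2 ≤ Q := by
    rcases Nat.eq_zero_or_pos k with h0 | h0
    · rw [hQdef, h0, pow_zero] at hu hv
      omega
    · calc 2 ≤ q := hq
        _ = q ^ 1 := (pow_one q).symm
        _ ≤ q ^ k := Nat.pow_le_pow_right (by omega) h0
  have hQr : (2 : ℝ) ≤ Q := by exact_mod_cast hQ
  have hlogQ : 0 < Real.log Q := Real.log_pos (by linarith)
  set c : ℝ := Real.log 2 / (2 * Real.log Q) with hc
  have hc0 : 0 < c := by
    have := Real.log_pos (show (1 : ℝ) < 2 by norm_num)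
    positivity
  have hQc : (Q : ℝ) ^ c = (2 : ℝ) ^ (1 / 2 : ℝ) := by
    rw [Real.rpow_def_of_pos (by linarith), Real.rpow_def_of_pos (by norm_num), hc]
    congr 1
    field_simp
  refine ⟨c, hc0, fun h hh => ?_⟩
  let N : ℕ → ℕ := fun m => q ^ a * M Q u v s₀ (m + 1) + 2 * b + (h - 2) * a₀
  have hqa : 0 < q ^ a := pow_pos (by omega) a
  have hN : Tendsto N atTop atTop := by
    apply tendsto_atTop_mono (f := fun m => m)
    · intro m
      have h1 := M_ge (s₀ := s₀) hQ huv (m + 1)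
      have h2 : M Q u v s₀ (m + 1) ≤ q ^ a * M Q u v s₀ (m + 1) := Nat.le_mul_of_pos_left _ hqa
      simp only [N]
      omega
    · exact tendsto_id
  set C : ℕ := q ^ a * (2 * s₀ + 4) + 2 * b + (h - 2) * a₀ with hC
  have hNle : ∀ m, N m ≤ C * Q ^ (m + 1) := by
    intro m
    have h1 := M_le (s₀ := s₀) hQ hu hv (m + 1)
    have h2 : 1 ≤ Q ^ (m + 1) := Nat.one_le_pow _ _ (by omega)
    have h3 : q ^ a * M Q u v s₀ (m + 1) ≤ q ^ a * ((2 * s₀ + 4) * Q ^ (m + 1)) :=
      Nat.mul_le_mul_left _ (by omega)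
    have h4 : 2 * b + (h - 2) * a₀ ≤ (2 * b + (h - 2) * a₀) * Q ^ (m + 1) :=
      Nat.le_mul_of_pos_right _ (by omega)
    simp only [N, hC]
    calc q ^ a * M Q u v s₀ (m + 1) + 2 * b + (h - 2) * a₀
        ≤ q ^ a * ((2 * s₀ + 4) * Q ^ (m + 1)) + (2 * b + (h - 2) * a₀) * Q ^ (m + 1) := by omega
      _ = (q ^ a * (2 * s₀ + 4) + 2 * b + (h - 2) * a₀) * Q ^ (m + 1) := by ring
  have hev : ∀ᶠ m : ℕ in atTop, ((N m : ℕ) : ℝ) ^ c ≤ ((reps A h (N m)).ncard : ℝ) := by
    -- `C ^ c ≤ 2 ^ ((m - 1) / 2)`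
    have h1 : Tendsto (fun m : ℕ => (2 : ℝ) ^ (((m : ℝ) - 1) / 2)) atTop atTop := by
      have h2 : Tendsto (fun m : ℕ => ((m : ℝ) - 1) / 2) atTop atTop := by
        apply Tendsto.atTop_div_const (by norm_num)
        exact tendsto_atTop_add_const_right _ _ tendsto_natCast_atTop_atTop
      exact (tendsto_rpow_atTop_of_base_gt_one 2 (by norm_num)).comp h2
    filter_upwards [h1.eventually_ge_atTop ((C : ℝ) ^ c)] with m hm
    have h3 := many_reps (m := m) hq hSA hu hv hSu hSv huv hs₀ ha₀ h hh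
    have h4 : (2 : ℝ) ^ m ≤ ((reps A h (N m)).ncard : ℝ) := by exact_mod_cast h3
    refine le_trans ?_ h4
    have h5 : ((N m : ℕ) : ℝ) ≤ (C : ℝ) * (Q : ℝ) ^ (m + 1) := by exact_mod_cast hNle m
    calc ((N m : ℕ) : ℝ) ^ c ≤ ((C : ℝ) * (Q : ℝ) ^ (m + 1)) ^ c :=
          Real.rpow_le_rpow (Nat.cast_nonneg _) h5 hc0.le
      _ = (C : ℝ) ^ c * ((Q : ℝ) ^ c) ^ (m + 1) := by
          rw [Real.mul_rpow (by positivity) (by positivity), ← Real.rpow_natCast, ← Real.rpow_natCast,
            ← Real.rpow_mul (by positivity), ← Real.rpow_mul (by positivity), mul_comm c]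
      _ ≤ (2 : ℝ) ^ (((m : ℝ) - 1) / 2) * ((2 : ℝ) ^ (1 / 2 : ℝ)) ^ (m + 1) := by
          rw [hQc]
          gcongr
      _ = (2 : ℝ) ^ m := by
          rw [← Real.rpow_natCast ((2 : ℝ) ^ (1 / 2 : ℝ)), ← Real.rpow_mul (by norm_num),
            ← Real.rpow_add (by norm_num), ← Real.rpow_natCast]
          congr 1
          push_cast
          ring
  exact hN.frequently hev.frequently

end Pool.Agent.Helper68K9.ET
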