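import Pool.Agent.Helper68K9.ET.Chr2
import Pool.Agent.Helper68K9.ET.Reps

/-!
# Automatic sequences modulo `p` and sets
-/

set_option autoImplicit false

namespace Pool.Agent.Helper68K9.ET

open PowerSeries Filter

/-- the `q`-kernel of the sequence `s` is finite -/
def FinKer (q : ℕ) {α : Type} (s : ℕ → α) : Prop :=
  {t : ℕ → α | ∃ k u : ℕ, u < q ^ k ∧ t = fun n => s (q ^ k * n + u)}.Finite

open Classical in
/-- the generating function of `A` over `F_p` -/
noncomputable def gf (p : ℕ) (A : Set ℕ) : PowerSeries (ZMod p) :=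
  PowerSeries.mk fun n => if n ∈ A then 1 else 0

variable {p : ℕ} [hp : Fact p.Prime]

theorem gf_injective : Function.Injective (gf p) := by
  classical
  intro A B h
  ext n
  have h1 := congrArg (coeff n) h
  simp only [gf, coeff_mk] at h1
  by_cases hA : n ∈ A <;> by_cases hB : n ∈ B <;> simp [hA, hB] at h1 ⊢

theorem algebraic_of_finKer {s : ℕ → ZMod p} (hs : FinKer p s) :
    IsAlgebraic (Polynomial (ZMod p)) (PowerSeries.mk s) := by
  set S : Set (PowerSeries (ZMod p)) := (fun t : ℕ → ZMod p => (PowerSeries.mk t : PowerSeries (ZMod p))) ''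
    {t : ℕ → ZMod p | ∃ k u : ℕ, u < p ^ k ∧ t = fun n => s (p ^ k * n + u)} with hS
  refine algebraic_of_closed (S := S) (hs.image _) ?_ ?_
  · rintro _ ⟨_, ⟨k, u, hu, rfl⟩, rfl⟩ d hd
    refine ⟨_, ⟨k + 1, p ^ k * d + u, ?_, rfl⟩, ?_⟩
    · rw [pow_succ]
      calc p ^ k * d + u < p ^ k * d + p ^ k := by omega
        _ = p ^ k * (d + 1) := by ring
        _ ≤ p ^ k * p := Nat.mul_le_mul_left _ hd
    · ext n
      simp only [coeff_mk, coeff_Lam]
      congr 1
      rw [pow_succ]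
      ring
  · exact ⟨s, ⟨0, 0, by simp, by simp⟩, rfl⟩

theorem gf_sec (A : Set ℕ) (k u d : ℕ) :
    Lam d (gf p (sec p A k u)) = gf p (sec p A (k + 1) (u + p ^ k * d)) := by
  classical
  ext n
  rw [coeff_Lam]
  simp only [gf, coeff_mk, sec, Set.mem_ofPred_eq]
  congr 1
  rw [show p ^ k * (p * n + d) + u = p ^ (k + 1) * n + (u + p ^ k * d) by rw [pow_succ]; ring]

theorem ker_finite_of_algebraic {A : Set ℕ} (hA : IsAlgebraic (Polynomial (ZMod p)) (gf p A)) :
    (ker p A).Finite := by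
  obtain ⟨S, hS, hf, hcl⟩ := closed_of_algebraic hA
  have h1 : ∀ k u, u < p ^ k → gf p (sec p A k u) ∈ S := by
    intro k
    induction k with
    | zero =>
      intro u hu
      have : u = 0 := by simpa using hu
      subst this
      have h2 : sec p A 0 0 = A := by ext n; simp [sec]
      rw [h2]
      exact hf
    | succ k ih =>
      intro u hu
      have h2 := hcl _ (ih (u % p ^ k) (Nat.mod_lt _ (pow_pos hp.out.pos k))) (u / p ^ k)
        (by rw [pow_succ] at hu; exact Nat.div_lt_of_lt_mul hu)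
      rw [gf_sec, Nat.mod_add_div] at h2
      exact h2
  refine Set.Finite.of_finite_image (f := gf p) (hS.subset ?_) (gf_injective.injOn)
  rintro _ ⟨_, ⟨k, u, hu, rfl⟩, rfl⟩
  exact h1 k u hu

theorem finKer_of_ker {q : ℕ} {A : Set ℕ} (h : (ker q A).Finite) : FinKer q (fun n => n ∈ A) := by
  refine (h.image (fun S : Set ℕ => (fun n => n ∈ S))).subset ?_
  rintro _ ⟨k, u, hu, rfl⟩
  exact ⟨sec q A k u, ⟨k, u, hu, rfl⟩, rfl⟩

/-- the number of ordered representations -/
noncomputable def ord (A : Set ℕ) (j n : ℕ) : ℕ :=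
  Set.ncard {a : Fin j → ℕ | (∀ i, a i ∈ A) ∧ ∑ i, a i = n}

theorem coeff_gf_pow (A : Set ℕ) (j n : ℕ) : coeff n (gf p A ^ j) = (ord A j n : ZMod p) := by
  classical
  have h1 : gf p A ^ j = ∏ _i : Fin j, gf p A := by
    rw [Finset.prod_const, Finset.card_univ, Fintype.card_fin]
  rw [h1, coeff_prod]
  have h2 : ∀ l ∈ Finset.finsuppAntidiag (Finset.univ : Finset (Fin j)) n,
      ∏ i : Fin j, coeff (l i) (gf p A) = if (∀ i, l i ∈ A) then (1 : ZMod p) else 0 := by
    intro l _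
    split_ifs with h3
    · apply Finset.prod_eq_one
      intro i _
      simp only [gf, coeff_mk]
      exact if_pos (h3 i)
    · push Not at h3
      obtain ⟨i, hi⟩ := h3
      apply Finset.prod_eq_zero (Finset.mem_univ i)
      simp only [gf, coeff_mk]
      exact if_neg hi
  rw [Finset.sum_congr rfl h2, Finset.sum_ite, Finset.sum_const_zero, add_zero, Finset.sum_const,
    nsmul_eq_mul, mul_one]
  congr 1
  have h4 : {a : Fin j → ℕ | (∀ i, a i ∈ A) ∧ ∑ i, a i = n} =
      (fun l : Fin j →₀ ℕ => (l : Fin j → ℕ)) '' (((Finset.finsuppAntidiag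
        (Finset.univ : Finset (Fin j)) n).filter (fun l => ∀ i, l i ∈ A) : Finset _) : Set (Fin j →₀ ℕ)) := by
    ext a
    simp only [Set.mem_ofPred_eq, Set.mem_image, Finset.coe_filter, Finset.mem_finsuppAntidiag]
    constructor
    · rintro ⟨h5, h6⟩
      refine ⟨Finsupp.equivFunOnFinite.symm a, ⟨⟨?_, ?_⟩, ?_⟩, ?_⟩
      · simpa using h6
      · intro x _; exact Finset.mem_univ x
      · intro i; simpa using h5 i
      · ext i; simp
    · rintro ⟨l, ⟨⟨h5, _⟩, h6⟩, rfl⟩
      exact ⟨h6, h5⟩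
  rw [ord, h4, Set.ncard_image_of_injective _ DFunLike.coe_injective, Set.ncard_coe_finset]

theorem coeff_pow_frob (f : PowerSeries (ZMod p)) (s n : ℕ) :
    coeff (p ^ s * n) (f ^ (p ^ s)) = coeff n f := by
  induction s with
  | zero => simp
  | succ s ih =>
    rw [pow_succ, pow_mul, coeff_pow_p, mul_comm (p ^ s) p, mul_assoc, if_pos (dvd_mul_right _ _),
      Nat.mul_div_cancel_left _ hp.out.pos, ih]

theorem ord_frob (A : Set ℕ) (s n : ℕ) : (ord A (p ^ s) (p ^ s * n) : ZMod p) = 1 ↔ n ∈ A := by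
  classical
  rw [← coeff_gf_pow, coeff_pow_frob]
  simp only [gf, coeff_mk]
  by_cases h : n ∈ A <;> simp [h]

/-- if `R_{A,p^s}` modulo `p` is `q`-automatic then so is `A` -/
theorem ker_finite_of_frob {q : ℕ} (hq : 2 ≤ q) {A : Set ℕ} {s : ℕ}
    (h : FinKer q (fun n => (ord A (p ^ s) n : ZMod p))) : (ker q A).Finite := by
  classical
  refine ((h.prod (Set.finite_Iio (p ^ s))).image
    (fun x : (ℕ → ZMod p) × ℕ => {n : ℕ | x.1 (p ^ s * n + x.2) = 1})).subset ?_
  rintro _ ⟨k, u, hu, rfl⟩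
  have hqk : 0 < q ^ k := pow_pos (by omega) k
  refine ⟨(fun n => (ord A (p ^ s) (q ^ k * n + p ^ s * u % q ^ k) : ZMod p), p ^ s * u / q ^ k),
    ⟨⟨k, p ^ s * u % q ^ k, Nat.mod_lt _ hqk, rfl⟩, ?_⟩, ?_⟩
  · rw [Set.mem_Iio]
    apply Nat.div_lt_of_lt_mul
    rw [mul_comm (q ^ k)]
    exact Nat.mul_lt_mul_of_pos_left hu (pow_pos hp.out.pos s)
  · ext n
    simp only [Set.mem_ofPred_eq, sec]
    rw [← ord_frob (p := p) A s (q ^ k * n + u)]
    have h1 : q ^ k * (p ^ s * n + p ^ s * u / q ^ k) + p ^ s * u % q ^ k = p ^ s * (q ^ k * n + u) := by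
      have h2 := Nat.div_add_mod (p ^ s * u) (q ^ k)
      rw [mul_add, mul_add, ← mul_assoc, ← mul_assoc, mul_comm (q ^ k) (p ^ s), add_assoc, h2]
    rw [h1]

end Pool.Agent.Helper68K9.ET
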