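import Pool.Agent.Helper68K9.ET.Sec

/-!
# Christol's theorem, first half: finite kernel implies algebraic
-/

set_option autoImplicit false

namespace Pool.Agent.Helper68K9.ET

open PowerSeries Finset

variable {p : ℕ} [hp : Fact p.Prime]

/-- polynomials act on power series by multiplication -/
theorem smul_eq (c : Polynomial (ZMod p)) (f : PowerSeries (ZMod p)) :
    c • f = (c : PowerSeries (ZMod p)) * f := by
  rw [Algebra.smul_def]
  congr 1

/-- a finite set of power series closed under sections consists of algebraic power series -/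
theorem algebraic_of_closed {S : Set (PowerSeries (ZMod p))} (hS : S.Finite)
    (hcl : ∀ f ∈ S, ∀ u < p, Lam u f ∈ S) {f : PowerSeries (ZMod p)} (hf : f ∈ S) :
    IsAlgebraic (Polynomial (ZMod p)) f := by
  classical
  have key : ∀ d M i : ℕ, i + d = M → ∀ g ∈ S, g ^ (p ^ i) ∈
      Submodule.span (Polynomial (ZMod p)) ((fun g : PowerSeries (ZMod p) => g ^ (p ^ M)) '' S) := by
    intro d
    induction d with
    | zero =>
      intro M i hi g hg
      have : i = M := by omega
      subst this
      exact Submodule.subset_span ⟨g, hg, rfl⟩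
    | succ d ih =>
      intro M i hi g hg
      have h1 : g ^ (p ^ i) = ∑ u ∈ range p, (Polynomial.X ^ (u * p ^ i) : Polynomial (ZMod p)) •
          (Lam u g) ^ (p ^ (i + 1)) := by
        conv_lhs => rw [eq_sum_Lam g]
        rw [sum_pow_char_pow]
        apply Finset.sum_congr rfl
        intro u _
        rw [smul_eq, mul_pow, ← pow_mul, ← pow_mul, Polynomial.coe_pow, Polynomial.coe_X, pow_succ']
      rw [h1]
      apply Submodule.sum_mem
      intro u hu
      apply Submodule.smul_mem
      exact ih M (i + 1) (by omega) _ (hcl g hg u (Finset.mem_range.1 hu))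
  -- the family of the powers `f ^ (p ^ i)`
  set T := hS.toFinset with hT
  set m := T.card with hm
  let v : Fin (m + 1) → PowerSeries (ZMod p) := fun i => f ^ (p ^ (i : ℕ))
  have hv : Set.range v ⊆ Submodule.span (Polynomial (ZMod p))
      (((T.image (fun g : PowerSeries (ZMod p) => g ^ (p ^ (m + 1)))) : Finset _) : Set (PowerSeries (ZMod p))) := by
    rintro _ ⟨i, rfl⟩
    have := key (m + 1 - i) (m + 1) i (by omega) f hf
    rw [Finset.coe_image, hT, Set.Finite.coe_toFinset]
    exact this
  have hdep : ¬ LinearIndependent (Polynomial (ZMod p)) v := by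
    intro hli
    have h2 := linearIndependent_le_span' v hli _ hv
    rw [Cardinal.mk_fin, Nat.cast_le] at h2
    simp only [Finset.coe_sort_coe, Fintype.card_coe] at h2
    have h3 : m + 1 ≤ (T.image (fun g : PowerSeries (ZMod p) => g ^ (p ^ (m + 1)))).card := by
      exact h2
    have h4 : (T.image (fun g : PowerSeries (ZMod p) => g ^ (p ^ (m + 1)))).card ≤ T.card := Finset.card_image_le
    omega
  rw [Fintype.not_linearIndependent_iff] at hdep
  obtain ⟨g, hg, i0, hi0⟩ := hdep
  refine ⟨∑ i : Fin (m + 1), Polynomial.C (g i) * Polynomial.X ^ (p ^ (i : ℕ)), ?_, ?_⟩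
  · intro h0
    apply hi0
    have h5 := congrArg (fun P => Polynomial.coeff P (p ^ (i0 : ℕ))) h0
    simp only [Polynomial.finsetSum_coeff, Polynomial.coeff_C_mul, Polynomial.coeff_X_pow,
      Polynomial.coeff_zero] at h5
    rw [Finset.sum_eq_single i0] at h5
    · simpa using h5
    · intro j _ hj
      rw [if_neg, mul_zero]
      intro h6
      apply hj
      have h7 := Nat.pow_right_injective hp.out.two_le h6
      exact (Fin.ext h7).symm
    · intro h; exact absurd (Finset.mem_univ _) h
  · rw [map_sum, ← hg]
    apply Finset.sum_congr rfl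
    intro i _
    rw [map_mul, map_pow, Polynomial.aeval_C, Polynomial.aeval_X, Algebra.smul_def]

end Pool.Agent.Helper68K9.ET
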