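import Pool.Agent.Helper68K9.ET.Chr1

/-!
# Christol's theorem, second half: algebraic implies finite kernel
-/

set_option autoImplicit false

namespace Pool.Agent.Helper68K9.ET

open PowerSeries Finset

variable {p : ℕ} [hp : Fact p.Prime]

/-- the coefficients vanish beyond `N` -/
def Bd (N : ℕ) (c : PowerSeries (ZMod p)) : Prop := ∀ n, N < n → coeff n c = 0

theorem Bd.mono {N M : ℕ} {c : PowerSeries (ZMod p)} (h : Bd N c) (hNM : N ≤ M) : Bd M c :=
  fun n hn => h n (lt_of_le_of_lt hNM hn)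

theorem bd_zero (N : ℕ) : Bd N (0 : PowerSeries (ZMod p)) := fun n _ => by simp

theorem Bd.sub {N : ℕ} {c d : PowerSeries (ZMod p)} (h : Bd N c) (h' : Bd N d) : Bd N (c - d) := by
  intro n hn
  rw [map_sub, h n hn, h' n hn, sub_zero]

theorem Bd.mul {N M : ℕ} {c d : PowerSeries (ZMod p)} (h : Bd N c) (h' : Bd M d) :
    Bd (N + M) (c * d) := by
  intro n hn
  rw [coeff_mul]
  apply Finset.sum_eq_zero
  rintro ⟨i, j⟩ hij
  rw [Finset.HasAntidiagonal.mem_antidiagonal] at hij
  simp only at hij ⊢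
  by_cases hi : N < i
  · rw [h i hi, zero_mul]
  · rw [h' j (by omega), mul_zero]

theorem bd_one : Bd 0 (1 : PowerSeries (ZMod p)) := by
  intro n hn
  rw [coeff_one, if_neg (by omega)]

theorem Bd.pow {N : ℕ} {c : PowerSeries (ZMod p)} (h : Bd N c) (k : ℕ) : Bd (k * N) (c ^ k) := by
  induction k with
  | zero => rw [pow_zero, zero_mul]; exact bd_one
  | succ k ih => rw [pow_succ, Nat.succ_mul]; exact ih.mul h

theorem bd_coe (c : Polynomial (ZMod p)) : Bd c.natDegree (c : PowerSeries (ZMod p)) := by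
  intro n hn
  rw [Polynomial.coeff_coe, Polynomial.coeff_eq_zero_of_natDegree_lt hn]

theorem Bd.Lam {N : ℕ} {c : PowerSeries (ZMod p)} (h : Bd N c) (u : ℕ) : Bd (N / p) (Lam u c) := by
  intro n hn
  rw [coeff_Lam]
  apply h
  rw [Nat.div_lt_iff_lt_mul hp.out.pos, mul_comm] at hn
  omega

theorem bd_finite (N : ℕ) : {c : PowerSeries (ZMod p) | Bd N c}.Finite := by
  classical
  refine (Set.finite_range (fun g : Fin (N + 1) → ZMod p =>
    (mk fun n => if h : n < N + 1 then g ⟨n, h⟩ else 0 : PowerSeries (ZMod p)))).subset ?_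
  intro c hc
  refine ⟨fun i => coeff (i : ℕ) c, ?_⟩
  ext n
  simp only [coeff_mk]
  split_ifs with h
  · rfl
  · exact (hc n (by omega)).symm

/-- a linear relation between the `f ^ (p ^ i)`, `i < t`, whose first nonzero coefficient is that
of `i = s` -/
def Rel (f : PowerSeries (ZMod p)) (s t : ℕ) : Prop :=
  ∃ a : ℕ → PowerSeries (ZMod p), (∀ i, ∃ N, Bd N (a i)) ∧ (∀ i < s, a i = 0) ∧ a s ≠ 0 ∧
    ∑ i ∈ range t, a i * f ^ (p ^ i) = 0 ∧ s < t

theorem Rel.descend {f : PowerSeries (ZMod p)} {s t : ℕ} (h : Rel f (s + 1) t) :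
    ∃ t', Rel f s t' := by
  obtain ⟨a, h1, h2, h3, h4, h5⟩ := h
  obtain ⟨t, rfl⟩ : ∃ t', t = t' + 1 := ⟨t - 1, by omega⟩
  rw [Finset.sum_range_succ', h2 0 (by omega), zero_mul, add_zero] at h4
  obtain ⟨u, hu, hne⟩ : ∃ u < p, Lam u (a (s + 1)) ≠ 0 := by
    by_contra hcon
    push Not at hcon
    exact h3 (eq_zero_of_Lam hcon)
  refine ⟨t, fun i => Lam u (a (i + 1)), fun i => ?_, fun i hi => ?_, hne, ?_, by omega⟩
  · obtain ⟨N, hN⟩ := h1 (i + 1)
    exact ⟨_, hN.Lam u⟩
  · simp only [h2 (i + 1) (by omega), Lam_zero]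
  · have h6 := congrArg (Lam u) h4
    rw [Lam_sum, Lam_zero] at h6
    rw [← h6]
    apply Finset.sum_congr rfl
    intro i _
    rw [pow_succ, pow_mul, mul_comm (a (i + 1)), Lam_pow_mul hu, mul_comm]

theorem Rel.zero {f : PowerSeries (ZMod p)} {s t : ℕ} (h : Rel f s t) : ∃ t', Rel f 0 t' := by
  induction s generalizing t with
  | zero => exact ⟨t, h⟩
  | succ s ih =>
    obtain ⟨t', h'⟩ := h.descend
    exact ih h'

theorem rel_of_algebraic {f : PowerSeries (ZMod p)} (hf : IsAlgebraic (Polynomial (ZMod p)) f) :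
    ∃ t, Rel f 0 t := by
  classical
  obtain ⟨y, hy, hint⟩ := hf.exists_integral_multiple
  have hfg := hint.fg_adjoin_singleton
  obtain ⟨T, hT⟩ := hfg
  set m := T.card with hm
  let v : Fin (m + 1) → PowerSeries (ZMod p) := fun i => (y • f) ^ (p ^ (i : ℕ))
  have hv : Set.range v ⊆ Submodule.span (Polynomial (ZMod p)) ((T : Finset _) : Set (PowerSeries (ZMod p))) := by
    rintro _ ⟨i, rfl⟩
    rw [hT]
    exact Subalgebra.pow_mem _ (Algebra.subset_adjoin (Set.mem_singleton _)) _
  have hdep : ¬ LinearIndependent (Polynomial (ZMod p)) v := by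
    intro hli
    have h2 := linearIndependent_le_span' v hli _ hv
    rw [Cardinal.mk_fin, Nat.cast_le] at h2
    simp only [Finset.coe_sort_coe, Fintype.card_coe] at h2
    omega
  rw [Fintype.not_linearIndependent_iff] at hdep
  obtain ⟨g, hg, i0, hi0⟩ := hdep
  let a : ℕ → PowerSeries (ZMod p) := fun i =>
    if h : i < m + 1 then ((g ⟨i, h⟩ * y ^ (p ^ i) : Polynomial (ZMod p)) : PowerSeries (ZMod p)) else 0
  have hex : ∃ i, a i ≠ 0 := by
    refine ⟨i0, ?_⟩
    simp only [a, dif_pos i0.2, ne_eq, Polynomial.coe_eq_zero_iff, Fin.eta]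
    exact mul_ne_zero hi0 (pow_ne_zero _ hy)
  set s := Nat.find hex with hs
  have hs1 : a s ≠ 0 := Nat.find_spec hex
  have hs2 : ∀ i < s, a i = 0 := fun i hi => by
    have := Nat.find_min hex hi
    push Not at this
    exact this
  have hs3 : s < m + 1 := by
    by_contra hcon
    apply hs1
    simp only [a, dif_neg hcon]
  have hrel : Rel f s (m + 1) := by
    refine ⟨a, fun i => ?_, hs2, hs1, ?_, hs3⟩
    · simp only [a]
      split_ifs
      · exact ⟨_, bd_coe _⟩
      · exact ⟨0, bd_zero 0⟩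
    · rw [Finset.sum_range, ← hg]
      apply Finset.sum_congr rfl
      intro i _
      simp only [a, v, dif_pos i.2, Fin.eta]
      rw [smul_eq, smul_eq, Polynomial.coe_mul, Polynomial.coe_pow, mul_pow]
      ring
  exact hrel.zero

/-- an algebraic power series lies in a finite set closed under sections -/
theorem closed_of_algebraic {f : PowerSeries (ZMod p)} (hf : IsAlgebraic (Polynomial (ZMod p)) f) :
    ∃ S : Set (PowerSeries (ZMod p)), S.Finite ∧ f ∈ S ∧ ∀ g ∈ S, ∀ u < p, Lam u g ∈ S := by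
  classical
  obtain ⟨t', a, hBd, -, ha0, hrel, ht⟩ := rel_of_algebraic hf
  obtain ⟨t, rfl⟩ : ∃ t, t' = t + 1 := ⟨t' - 1, by omega⟩
  have hp2 := hp.out.two_le
  set b := a 0 with hb
  set q := p ^ (t + 1) with hq
  let e : ℕ → PowerSeries (ZMod p) := fun i => a (i + 1) * b ^ (p ^ (i + 1) - 2)
  have he : ∀ i, ∃ N, Bd N (e i) := by
    intro i
    obtain ⟨N, hN⟩ := hBd (i + 1)
    obtain ⟨M, hM⟩ := hBd 0
    exact ⟨_, hN.mul (hM.pow _)⟩
  choose NE hNE using he
  obtain ⟨N0, hN0⟩ := hBd 0
  set N := N0 + ∑ i ∈ range t, NE i with hN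
  have hbN : Bd N b := hN0.mono (by omega)
  have heN : ∀ i < t, Bd N (e i) := by
    intro i hi
    refine (hNE i).mono ?_
    have := Finset.single_le_sum (f := NE) (fun j _ => Nat.zero_le _) (Finset.mem_range.2 hi)
    omega
  have hppos : ∀ i, 0 < p ^ i := fun i => pow_pos hp.out.pos i
  have hp2' : ∀ i, 2 ≤ p ^ (i + 1) := fun i => by
    rw [pow_succ]
    calc 2 ≤ 1 * p := by omega
      _ ≤ p ^ i * p := Nat.mul_le_mul_right _ (hppos i)
  have hple : ∀ i ≤ t + 1, p ^ i ≤ q := fun i hi => Nat.pow_le_pow_right hp.out.pos hi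
  have hbf : b * f = - ∑ i ∈ range t, a (i + 1) * f ^ (p ^ (i + 1)) := by
    rw [Finset.sum_range_succ', pow_zero, pow_one] at hrel
    rw [eq_neg_iff_add_eq_zero, add_comm]
    exact hrel
  let S : Set (PowerSeries (ZMod p)) := {H | ∃ c : ℕ → PowerSeries (ZMod p), (∀ i, Bd N (c i)) ∧
    b ^ q * H = ∑ i ∈ range (t + 1), c i * (b ^ (q - p ^ i) * f ^ (p ^ i))}
  refine ⟨S, ?_, ?_, ?_⟩
  · -- finiteness
    have hfin : Finite {c : PowerSeries (ZMod p) // Bd N c} := (bd_finite N).to_subtype
    have hW : (Set.range (fun c : Fin (t + 1) → {c : PowerSeries (ZMod p) // Bd N c} =>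
        ∑ i : Fin (t + 1), (c i : PowerSeries (ZMod p)) * (b ^ (q - p ^ (i : ℕ)) * f ^ (p ^ (i : ℕ))))).Finite :=
      Set.finite_range _
    refine Set.Finite.of_finite_image (f := fun H => b ^ q * H) (hW.subset ?_) ?_
    · rintro _ ⟨H, ⟨c, hc1, hc2⟩, rfl⟩
      refine ⟨fun i => ⟨c i, hc1 i⟩, ?_⟩
      simp only
      rw [hc2, Finset.sum_range]
    · intro H _ H' _ hHH
      exact mul_left_cancel₀ (pow_ne_zero _ ha0) hHH
  · -- `f ∈ S`
    refine ⟨fun i => if i = 0 then b else 0, fun i => ?_, ?_⟩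
    · simp only
      split_ifs
      · exact hbN
      · exact bd_zero N
    · rw [Finset.sum_eq_single 0]
      · simp only [if_true, pow_zero, pow_one]
        rw [← mul_assoc, ← pow_succ']
        congr 2
        have := hppos (t + 1)
        omega
      · intro i _ hi
        simp only [if_neg hi, zero_mul]
      · intro h
        exact absurd (Finset.mem_range.2 (by omega)) h
  · rintro H ⟨c, hc1, hc2⟩ u hu
    let d : ℕ → PowerSeries (ZMod p) := fun i => c (i + 1) - c 0 * e i
    have h1 : b ^ q * H = ∑ i ∈ range t, (b ^ (p ^ t - p ^ i) * f ^ (p ^ i)) ^ p * d i := by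
      rw [hc2, Finset.sum_range_succ', pow_zero, pow_one]
      have h2 : b ^ (q - 1) * f = - ∑ i ∈ range t, e i * (b ^ (q - p ^ (i + 1)) * f ^ (p ^ (i + 1))) := by
        have hq2 : 2 ≤ q := hp2' t
        have h3 : b ^ (q - 1) * f = b ^ (q - 2) * (b * f) := by
          rw [← mul_assoc, ← pow_succ]
          congr 2
          omega
        rw [h3, hbf, mul_neg, Finset.mul_sum]
        congr 1
        apply Finset.sum_congr rfl
        intro i hi
        rw [Finset.mem_range] at hi
        have h4 : b ^ (q - 2) = b ^ (p ^ (i + 1) - 2) * b ^ (q - p ^ (i + 1)) := by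
          rw [← pow_add]
          congr 1
          have := hp2' i
          have := hple (i + 1) (by omega)
          omega
        rw [h4]
        simp only [e]
        ring
      rw [h2, mul_neg, Finset.mul_sum, ← sub_eq_add_neg, ← Finset.sum_sub_distrib]
      apply Finset.sum_congr rfl
      intro i hi
      rw [Finset.mem_range] at hi
      have h5 : (b ^ (p ^ t - p ^ i) * f ^ (p ^ i)) ^ p = b ^ (q - p ^ (i + 1)) * f ^ (p ^ (i + 1)) := by
        rw [mul_pow, ← pow_mul, ← pow_mul, ← pow_succ, Nat.sub_mul, ← pow_succ, ← pow_succ]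
      rw [h5]
      simp only [d]
      ring
    have h6 : b ^ (p ^ t) * Lam u H = ∑ i ∈ range t, (b ^ (p ^ t - p ^ i) * f ^ (p ^ i)) * Lam u (d i) := by
      have h7 := congrArg (Lam u) h1
      rw [hq, pow_succ, pow_mul, Lam_pow_mul hu, Lam_sum] at h7
      rw [h7]
      apply Finset.sum_congr rfl
      intro i _
      rw [Lam_pow_mul hu]
    refine ⟨fun i => if i < t then Lam u (d i) else 0, fun i => ?_, ?_⟩
    · simp only
      split_ifs with hi
      · have h8 : Bd (N + N) (d i) := ((hc1 (i + 1)).mono (by omega)).sub ((hc1 0).mul (heN i hi))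
        refine (h8.Lam u).mono ?_
        calc (N + N) / p ≤ (N + N) / 2 := Nat.div_le_div_left hp2 (by norm_num)
          _ = N := by omega
      · exact bd_zero N
    · rw [Finset.sum_range_succ]
      beta_reduce
      rw [if_neg (lt_irrefl t), zero_mul, add_zero]
      have h9 : b ^ q = b ^ (q - p ^ t) * b ^ (p ^ t) := by
        rw [← pow_add]
        congr 1
        have := hple t (by omega)
        omega
      rw [h9, mul_assoc, h6, Finset.mul_sum]
      apply Finset.sum_congr rfl
      intro i hi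
      rw [Finset.mem_range] at hi
      rw [if_pos hi]
      have h10 : b ^ (q - p ^ i) = b ^ (q - p ^ t) * b ^ (p ^ t - p ^ i) := by
        rw [← pow_add]
        congr 1
        have := hple t (by omega)
        have : p ^ i ≤ p ^ t := Nat.pow_le_pow_right hp.out.pos (by omega)
        omega
      rw [h10]
      ring

end Pool.Agent.Helper68K9.ET
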