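import Mathlib

/-!
# Sets of integers with finitely many sections: few elements or many representations
-/

set_option autoImplicit false

namespace Pool.Agent.Helper68K9.ET

open Filter

/-- the section of `A` in the class `u` modulo `q ^ k` -/
def sec (q : ℕ) (A : Set ℕ) (k u : ℕ) : Set ℕ := {n | q ^ k * n + u ∈ A}

/-- the `q`-kernel of `A` -/
def ker (q : ℕ) (A : Set ℕ) : Set (Set ℕ) := {S | ∃ k u, u < q ^ k ∧ S = sec q A k u}

theorem sec_sec (q : ℕ) (A : Set ℕ) (k u l v : ℕ) :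
    sec q (sec q A k u) l v = sec q A (k + l) (u + q ^ k * v) := by
  ext n
  simp only [sec, Set.mem_ofPred_eq]
  rw [show q ^ k * (q ^ l * n + v) + u = q ^ (k + l) * n + (u + q ^ k * v) by rw [pow_add]; ring]

theorem mem_sec_mod (q : ℕ) {A : Set ℕ} {a : ℕ} (ha : a ∈ A) (j : ℕ) :
    a / q ^ j ∈ sec q A j (a % q ^ j) := by
  simp only [sec, Set.mem_ofPred_eq]
  rw [Nat.div_add_mod]
  exact ha

/-- a nonempty section which returns to itself in two ways -/
def Double (q : ℕ) (A : Set ℕ) : Prop :=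
  ∃ S ∈ ker q A, S.Nonempty ∧ ∃ k u v, u < q ^ k ∧ v < q ^ k ∧ sec q S k u = S ∧ sec q S k v = S ∧
    u ≠ v

theorem count_le {q : ℕ} (hq : 2 ≤ q) {A : Set ℕ} (hK : (ker q A).Finite) (hD : ¬ Double q A)
    (m : ℕ) : (A ∩ Set.Iio (q ^ m)).ncard ≤ ((m + 1) * q) ^ hK.toFinset.card := by
  classical
  have hq0 : 0 < q := by omega
  have hqp : ∀ j, 0 < q ^ j := fun j => pow_pos hq0 j
  set F := hK.toFinset with hF
  let lst : ℕ → Set ℕ → ℕ := fun a S => Nat.findGreatest (fun j => sec q A j (a % q ^ j) = S) m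
  have hlst : ∀ a S, lst a S < m + 1 := fun a S => Nat.lt_succ_of_le (Nat.findGreatest_le m)
  let Φ : ℕ → (F → Fin (m + 1) × Fin q) := fun a S =>
    (⟨lst a S, hlst a S⟩, ⟨a / q ^ (lst a S) % q, Nat.mod_lt _ hq0⟩)
  have hinj : Set.InjOn Φ (A ∩ Set.Iio (q ^ m)) := by
    rintro a ⟨haA, ham⟩ a' ⟨haA', ham'⟩ hΦ
    rw [Set.mem_Iio] at ham ham'
    have h1 : ∀ S ∈ ker q A, lst a S = lst a' S ∧ a / q ^ (lst a S) % q = a' / q ^ (lst a' S) % q := by
      intro S hS
      have hSF : S ∈ F := by rw [hF, Set.Finite.mem_toFinset]; exact hS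
      have h2 := congrFun hΦ ⟨S, hSF⟩
      simp only [Φ, Prod.mk.injEq, Fin.mk.injEq] at h2
      exact h2
    set j := Nat.findGreatest (fun j => a % q ^ j = a' % q ^ j) m with hj
    have hjm : j ≤ m := Nat.findGreatest_le m
    have hjP : a % q ^ j = a' % q ^ j := by
      have := Nat.findGreatest_spec (P := fun j => a % q ^ j = a' % q ^ j) (Nat.zero_le m)
        (by simp [Nat.mod_one])
      exact this
    rcases eq_or_lt_of_le hjm with h | h
    · rw [h, Nat.mod_eq_of_lt ham, Nat.mod_eq_of_lt ham'] at hjP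
      exact hjP
    exfalso
    have hmax : ∀ l ≤ m, a % q ^ l = a' % q ^ l → l ≤ j := fun l hl hP =>
      Nat.le_findGreatest hl hP
    set S := sec q A j (a % q ^ j) with hS
    have hSK : S ∈ ker q A := ⟨j, a % q ^ j, Nat.mod_lt _ (hqp j), rfl⟩
    have hSne : S.Nonempty := ⟨_, mem_sec_mod q haA j⟩
    have hS' : sec q A j (a' % q ^ j) = S := by rw [hS, hjP]
    obtain ⟨h2, h3⟩ := h1 S hSK
    have h4 : j ≤ lst a S := Nat.le_findGreatest hjm rfl
    have h5 : sec q A (lst a S) (a % q ^ (lst a S)) = S :=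
      Nat.findGreatest_spec (P := fun j => sec q A j (a % q ^ j) = S) hjm rfl
    have h6 : sec q A (lst a' S) (a' % q ^ (lst a' S)) = S :=
      Nat.findGreatest_spec (P := fun j => sec q A j (a' % q ^ j) = S) hjm hS'
    set l := lst a S with hl
    rw [← h2] at h3 h6
    have hlm : l ≤ m := Nat.lt_succ_iff.1 (hlst a S)
    rcases eq_or_lt_of_le h4 with h7 | h7
    · rw [← h7] at h3
      have h8 : a % q ^ (j + 1) = a' % q ^ (j + 1) := by
        rw [Nat.mod_pow_succ, Nat.mod_pow_succ, hjP, h3]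
      have := hmax (j + 1) (by omega) h8
      omega
    · -- a double loop
      have key : ∀ x, a % q ^ j = x % q ^ j → sec q A l (x % q ^ l) = S →
          ∃ w < q ^ (l - j), x % q ^ l = x % q ^ j + q ^ j * w ∧ sec q S (l - j) w = S := by
        intro x hx hxS
        refine ⟨x % q ^ l / q ^ j, ?_, ?_, ?_⟩
        · apply Nat.div_lt_of_lt_mul
          rw [← pow_add, show j + (l - j) = l by omega]
          exact Nat.mod_lt _ (hqp l)
        · have h9 : x % q ^ l % q ^ j = x % q ^ j :=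
            Nat.mod_mod_of_dvd _ (pow_dvd_pow q (by omega))
          have h10 := Nat.mod_add_div (x % q ^ l) (q ^ j)
          rw [h9] at h10
          exact h10.symm
        · have h9 : x % q ^ l % q ^ j = x % q ^ j :=
            Nat.mod_mod_of_dvd _ (pow_dvd_pow q (by omega))
          have h10 := Nat.mod_add_div (x % q ^ l) (q ^ j)
          rw [h9] at h10
          rw [hS, sec_sec, hx, h10, show j + (l - j) = l by omega, hxS, hS, hx]
      obtain ⟨w, hw1, hw2, hw3⟩ := key a rfl h5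
      obtain ⟨w', hw1', hw2', hw3'⟩ := key a' hjP h6
      have h11 : w = w' := by
        by_contra hne
        exact hD ⟨S, hSK, hSne, l - j, w, w', hw1, hw1', hw3, hw3', hne⟩
      have := hmax l hlm (by rw [hw2, hw2', hjP, h11])
      omega
  have h12 : (A ∩ Set.Iio (q ^ m)).ncard ≤ (Set.univ : Set (F → Fin (m + 1) × Fin q)).ncard :=
    Set.ncard_le_ncard_of_injOn Φ (fun _ _ => Set.mem_univ _) hinj Set.finite_univ
  rw [Set.ncard_univ, Nat.card_eq_fintype_card, Fintype.card_fun, Fintype.card_prod, Fintype.card_fin,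
    Fintype.card_fin, Fintype.card_coe] at h12
  exact h12

/-- power growth gives a double loop -/
theorem double_of_growth {q : ℕ} (hq : 2 ≤ q) {A : Set ℕ} (hK : (ker q A).Finite) {ε : ℝ}
    (hε : 0 < ε) (hA : ∃ᶠ N : ℕ in atTop, (N : ℝ) ^ ε ≤ ((A ∩ Set.Iio N).ncard : ℝ)) :
    Double q A := by
  by_contra hD
  have hq0 : 0 < q := by omega
  set κ := hK.toFinset.card with hκ
  have h1 : ∀ᶠ N : ℕ in atTop, ((A ∩ Set.Iio N).ncard : ℝ) < (N : ℝ) ^ ε := by
    -- `ncard ≤ ((log N + 2) q) ^ κ`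
    have hlo : (fun x : ℝ => (Real.log x) ^ (κ : ℝ)) =o[atTop] fun x => x ^ ε :=
      isLittleO_log_rpow_rpow_atTop _ hε
    set C : ℝ := (4 * q) ^ κ with hC
    have hCpos : 0 < C := by positivity
    have h2 := (hlo.bound (show (0 : ℝ) < 1 / (2 * C * 2 ^ κ) by positivity))
    have h3 : ∀ᶠ N : ℕ in atTop, ‖(Real.log (N : ℝ)) ^ (κ : ℝ)‖ ≤ 1 / (2 * C * 2 ^ κ) * ‖(N : ℝ) ^ ε‖ :=
      tendsto_natCast_atTop_atTop.eventually h2
    filter_upwards [h3, eventually_ge_atTop 3] with N hN hN3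
    have hNr : (3 : ℝ) ≤ N := by exact_mod_cast hN3
    have hlogN : 1 ≤ Real.log N := by
      rw [Real.le_log_iff_exp_le (by linarith)]
      have := Real.exp_one_lt_d9
      linarith
    set m := Nat.log q N + 1 with hm
    have h4 : N < q ^ m := Nat.lt_pow_succ_log_self (by omega) N
    have h5 : (A ∩ Set.Iio N).ncard ≤ (A ∩ Set.Iio (q ^ m)).ncard := by
      apply Set.ncard_le_ncard
      · exact Set.inter_subset_inter_right _ (Set.Iio_subset_Iio h4.le)
      · exact (Set.finite_Iio _).subset Set.inter_subset_right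
    have h6 := count_le hq hK hD m
    have h7 : ((A ∩ Set.Iio N).ncard : ℝ) ≤ (((m : ℝ) + 1) * q) ^ κ := by
      have : (A ∩ Set.Iio N).ncard ≤ ((m + 1) * q) ^ κ := h5.trans h6
      exact_mod_cast this
    have h8 : (m : ℝ) + 1 ≤ 4 * Real.log N * 2 := by
      have h9 : (Nat.log q N : ℝ) ≤ Real.log N / Real.log q := by
        have := Real.natLog_le_logb N q
        rw [Real.logb] at this
        exact this
      have h10 : Real.log 2 ≤ Real.log q := Real.log_le_log (by norm_num) (by exact_mod_cast hq)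
      have h11 := Real.log_two_gt_d9
      have h12 : Real.log N / Real.log q ≤ 2 * Real.log N := by
        rw [div_le_iff₀ (by linarith)]
        nlinarith
      rw [hm]
      push_cast
      linarith
    have hnorm1 : ‖(Real.log (N : ℝ)) ^ (κ : ℝ)‖ = (Real.log N) ^ κ := by
      rw [Real.rpow_natCast, Real.norm_eq_abs, abs_of_nonneg (by positivity)]
    have hnorm2 : ‖(N : ℝ) ^ ε‖ = (N : ℝ) ^ ε := by
      rw [Real.norm_eq_abs, abs_of_nonneg (by positivity)]
    rw [hnorm1, hnorm2] at hN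
    have h13 : (((m : ℝ) + 1) * q) ^ κ ≤ C * 2 ^ κ * (Real.log N) ^ κ := by
      rw [hC, ← mul_pow, ← mul_pow]
      apply pow_le_pow_left₀ (by positivity)
      calc ((m : ℝ) + 1) * q ≤ (4 * Real.log N * 2) * q := by gcongr
        _ = 4 * q * 2 * Real.log N := by ring
    have h14 : C * 2 ^ κ * (Real.log N) ^ κ ≤ (N : ℝ) ^ ε / 2 := by
      calc C * 2 ^ κ * (Real.log N) ^ κ ≤ C * 2 ^ κ * (1 / (2 * C * 2 ^ κ) * (N : ℝ) ^ ε) := by gcongr
        _ = (N : ℝ) ^ ε / 2 := by field_simp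
    have h15 : 0 < (N : ℝ) ^ ε := by positivity
    linarith
  exact hA (h1.mono fun N hN => not_le.2 hN)

end Pool.Agent.Helper68K9.ET
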