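import Mathlib

/-!
# Sections of power series over `F_p`
-/

set_option autoImplicit false

namespace Pool.Agent.Helper68K9.ET

open PowerSeries Finset

variable {p : ℕ} [hp : Fact p.Prime]

instance : CharP (PowerSeries (ZMod p)) p := by
  refine ⟨fun n => ?_⟩
  rw [← CharP.cast_eq_zero_iff (ZMod p) p n, ← map_natCast (PowerSeries.C (R := ZMod p)) n]
  constructor
  · intro h
    exact PowerSeries.C_injective (by simpa using h)
  · intro h
    rw [h, map_zero]

/-- the `p`-th power of a power series over `F_p` -/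
theorem coeff_pow_p (f : PowerSeries (ZMod p)) (n : ℕ) :
    coeff n (f ^ p) = if p ∣ n then coeff (n / p) f else 0 := by
  have h1 : ∃ g : PowerSeries (ZMod p), f = (trunc (n + 1) f : PowerSeries (ZMod p)) + X ^ (n + 1) * g := by
    refine ⟨mk fun k => coeff (k + (n + 1)) f, ?_⟩
    have := PowerSeries.eq_X_pow_mul_shift_add_trunc (n + 1) f
    rw [add_comm]
    exact this
  obtain ⟨g, hg⟩ := h1
  have h2 : f ^ p = (((trunc (n + 1) f) ^ p : Polynomial (ZMod p)) : PowerSeries (ZMod p)) +
      X ^ (n + 1) * (X ^ ((n + 1) * (p - 1)) * g ^ p) := by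
    conv_lhs => rw [hg]
    rw [add_pow_char, mul_pow, ← pow_mul, Polynomial.coe_pow, ← mul_assoc, ← pow_add]
    congr 3
    have := hp.out.pos
    obtain ⟨q, rfl⟩ : ∃ q, p = q + 1 := ⟨p - 1, by omega⟩
    simp
    ring
  rw [h2, map_add, Polynomial.coeff_coe, ← ZMod.expand_card, Polynomial.coeff_expand hp.out.pos,
    PowerSeries.coeff_X_pow_mul']
  rw [if_neg (show ¬ (n + 1 ≤ n) by omega), add_zero]
  split_ifs with h3
  · rw [coeff_trunc, if_pos]
    have := Nat.div_le_self n p
    omega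
  · rfl

/-- the section of a power series in the class `u` modulo `p` -/
noncomputable def Lam (u : ℕ) (f : PowerSeries (ZMod p)) : PowerSeries (ZMod p) :=
  mk fun n => coeff (p * n + u) f

@[simp] theorem coeff_Lam (u n : ℕ) (f : PowerSeries (ZMod p)) :
    coeff n (Lam u f) = coeff (p * n + u) f := by
  simp [Lam]

theorem Lam_add (u : ℕ) (f g : PowerSeries (ZMod p)) : Lam u (f + g) = Lam u f + Lam u g := by
  ext n; simp

theorem Lam_zero (u : ℕ) : Lam u (0 : PowerSeries (ZMod p)) = 0 := by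
  ext n; simp

theorem Lam_sum {ι : Type*} (u : ℕ) (s : Finset ι) (f : ι → PowerSeries (ZMod p)) :
    Lam u (∑ i ∈ s, f i) = ∑ i ∈ s, Lam u (f i) := by
  ext n; simp

/-- `Λ_u (g^p f) = g Λ_u (f)` -/
theorem Lam_pow_mul {u : ℕ} (hu : u < p) (g f : PowerSeries (ZMod p)) :
    Lam u (g ^ p * f) = g * Lam u f := by
  ext n
  rw [coeff_Lam, coeff_mul, coeff_mul]
  have hp0 := hp.out.pos
  symm
  refine Finset.sum_of_injOn (fun x : ℕ × ℕ => (p * x.1, p * x.2 + u)) ?_ ?_ ?_ ?_
  · rintro ⟨a, b⟩ - ⟨c, d⟩ - h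
    simp only [Prod.mk.injEq] at h
    obtain ⟨h1, h2⟩ := h
    have h3 : a = c := Nat.eq_of_mul_eq_mul_left hp0 h1
    have h4 : b = d := Nat.eq_of_mul_eq_mul_left hp0 (by omega)
    rw [h3, h4]
  · rintro ⟨a, b⟩ h
    simp only [Finset.mem_coe, Finset.HasAntidiagonal.mem_antidiagonal] at h ⊢
    rw [← h]; ring
  · rintro ⟨a, b⟩ h1 h2
    rw [Finset.HasAntidiagonal.mem_antidiagonal] at h1
    simp only at h1 ⊢
    rw [coeff_pow_p]
    split_ifs with h3
    · exfalso
      apply h2
      obtain ⟨c, rfl⟩ := h3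
      have h4 : c ≤ n := by
        by_contra hc
        push Not at hc
        have : p * (n + 1) ≤ p * c := Nat.mul_le_mul_left p hc
        rw [mul_add, mul_one] at this
        omega
      refine ⟨(c, n - c), ?_, ?_⟩
      · simp only [Finset.mem_coe, Finset.HasAntidiagonal.mem_antidiagonal]
        omega
      · simp only [Prod.mk.injEq, true_and]
        have : p * n = p * c + p * (n - c) := by rw [← mul_add]; congr 1; omega
        omega
    · rw [zero_mul]
  · rintro ⟨a, b⟩ _
    simp only [coeff_Lam]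
    rw [coeff_pow_p, if_pos (dvd_mul_right p a), Nat.mul_div_cancel_left _ hp0]

/-- `f = ∑ X^u (Λ_u f)^p` -/
theorem eq_sum_Lam (f : PowerSeries (ZMod p)) :
    f = ∑ u ∈ range p, X ^ u * (Lam u f) ^ p := by
  ext n
  rw [map_sum]
  have hp0 := hp.out.pos
  rw [Finset.sum_eq_single (n % p)]
  · rw [coeff_X_pow_mul', if_pos (Nat.mod_le n p), coeff_pow_p, if_pos, coeff_Lam]
    · congr 1
      have h1 := Nat.div_add_mod n p
      have h2 : n - n % p = p * (n / p) := by
        rw [Nat.sub_eq_iff_eq_add (Nat.mod_le n p)]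
        exact h1.symm
      rw [h2, Nat.mul_div_cancel_left _ hp0, h1]
    · exact Nat.dvd_sub_mod n
  · intro u hu hne
    rw [Finset.mem_range] at hu
    rw [coeff_X_pow_mul']
    split_ifs with h1
    · rw [coeff_pow_p, if_neg]
      intro h2
      apply hne
      have h3 : (n - u) % p = 0 := Nat.mod_eq_zero_of_dvd h2
      have h4 : n = (n - u) + u := by omega
      rw [h4, Nat.add_mod, h3, zero_add, Nat.mod_mod, Nat.mod_eq_of_lt hu]
    · rfl
  · intro h
    exact absurd (Finset.mem_range.2 (Nat.mod_lt _ hp0)) h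

theorem eq_zero_of_Lam {f : PowerSeries (ZMod p)} (h : ∀ u < p, Lam u f = 0) : f = 0 := by
  rw [eq_sum_Lam f]
  apply Finset.sum_eq_zero
  intro u hu
  rw [h u (Finset.mem_range.1 hu), zero_pow hp.out.ne_zero, mul_zero]

end Pool.Agent.Helper68K9.ET
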